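import Pool.Agent.U187.MV.Nw

/-! Sums of cyclic permutation representations: the coefficients of the tensor products. -/

set_option autoImplicit false
set_option maxHeartbeats 400000

namespace Pool.Agent.U187.MV

open PowerSeries

section pc

variable {R : ℕ}

/-- the coefficient of a product of power series -/
noncomputable def pc (V : Fin R → ℕ → ℂ) (i : ℕ) : ℂ :=
  PowerSeries.coeff i (∏ s, PowerSeries.mk (V s))

theorem pc_eq (V : Fin R → ℕ → ℂ) (i : ℕ) :
    pc V i = ∑ j ∈ Finset.finsuppAntidiag Finset.univ i, ∏ s, V s (j s) := by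
  unfold pc
  rw [PowerSeries.coeff_prod]
  simp_rw [coeff_mk]

theorem le_of_anti {j : Fin R →₀ ℕ} {i : ℕ} (hj : j ∈ Finset.finsuppAntidiag Finset.univ i)
    (s : Fin R) : j s ≤ i := by
  rw [Finset.mem_finsuppAntidiag] at hj
  rw [← hj.1]
  exact Finset.single_le_sum (f := fun s => j s) (fun _ _ => Nat.zero_le _) (Finset.mem_univ s)

theorem coeff_prod_congr {F G : Fin R → ℂ⟦X⟧} {i : ℕ}
    (h : ∀ s, ∀ j ≤ i, PowerSeries.coeff j (F s) = PowerSeries.coeff j (G s)) :
    PowerSeries.coeff i (∏ s, F s) = PowerSeries.coeff i (∏ s, G s) := by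
  rw [PowerSeries.coeff_prod, PowerSeries.coeff_prod]
  refine Finset.sum_congr rfl fun j hj => Finset.prod_congr rfl fun s _ => ?_
  exact h s _ (le_of_anti hj s)

theorem pc_smul (V : Fin R → ℕ → ℂ) (a : ℂ) (i : ℕ) :
    pc (fun s j => a * V s j) i = a ^ R * pc V i := by
  rw [pc_eq, pc_eq, Finset.mul_sum]
  refine Finset.sum_congr rfl fun j _ => ?_
  rw [Finset.prod_mul_distrib, Finset.prod_const, Finset.card_univ, Fintype.card_fin]

theorem pc_sum {m : Type} (S : Fin R → Finset m) (w : Fin R → m → ℂ) (V : m → ℕ → ℂ) (i : ℕ) :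
    ∑ n ∈ Fintype.piFinset S, (∏ s, w s (n s)) * pc (fun s => V (n s)) i =
      pc (fun s j => ∑ a ∈ S s, w s a * V a j) i := by
  have h1 : (fun s => PowerSeries.mk (fun j => ∑ a ∈ S s, w s a * V a j) : Fin R → ℂ⟦X⟧) =
      fun s => ∑ a ∈ S s, w s a • PowerSeries.mk (V a) := by
    funext s
    ext j
    rw [coeff_mk, map_sum]
    refine Finset.sum_congr rfl fun a _ => ?_
    rw [PowerSeries.coeff_smul, coeff_mk, smul_eq_mul]
  unfold pc
  rw [h1, Finset.prod_univ_sum, map_sum]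
  refine Finset.sum_congr rfl fun n _ => ?_
  rw [Finset.prod_smul, PowerSeries.coeff_smul, smul_eq_mul]

theorem pc_single (b : Fin R → ℂ) (j : Fin R → ℕ) :
    pc (fun s k => if k = j s then b s else 0) (∑ s, j s) = ∏ s, b s := by
  classical
  rw [pc_eq, Finset.sum_eq_single (Finsupp.equivFunOnFinite.symm j)]
  · refine Finset.prod_congr rfl fun s _ => ?_
    rw [if_pos]
    rfl
  · intro j' _ hne
    obtain ⟨s, hs⟩ : ∃ s, j' s ≠ j s := by
      by_contra hcon
      push Not at hcon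
      exact hne (Finsupp.ext hcon)
    exact Finset.prod_eq_zero (Finset.mem_univ s) (if_neg hs)
  · intro h
    exfalso
    apply h
    rw [Finset.mem_finsuppAntidiag]
    exact ⟨rfl, Finset.subset_univ _⟩

theorem prod_sub_le {B : ℝ} (hB : 1 ≤ B) (s : Finset (Fin R)) (a b : Fin R → ℂ)
    (ha : ∀ i, ‖a i‖ ≤ B) (hb : ∀ i, ‖b i‖ ≤ B) :
    ‖∏ i ∈ s, a i - ∏ i ∈ s, b i‖ ≤ B ^ s.card * ∑ i ∈ s, ‖a i - b i‖ := by
  induction s using Finset.induction_on with
  | empty => simp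
  | insert i s hi ih =>
    rw [Finset.prod_insert hi, Finset.prod_insert hi, Finset.sum_insert hi,
      Finset.card_insert_of_notMem hi]
    have h1 : a i * ∏ i ∈ s, a i - b i * ∏ i ∈ s, b i =
        (a i - b i) * ∏ i ∈ s, a i + b i * (∏ i ∈ s, a i - ∏ i ∈ s, b i) := by ring
    have hp : ‖∏ i ∈ s, a i‖ ≤ B ^ s.card := by
      rw [norm_prod]
      calc ∏ i ∈ s, ‖a i‖ ≤ ∏ _i ∈ s, B :=
            Finset.prod_le_prod (fun _ _ => norm_nonneg _) fun i _ => ha i
        _ = B ^ s.card := by rw [Finset.prod_const]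
    have hB0 : 0 ≤ B := zero_le_one.trans hB
    have hS0 : 0 ≤ ∑ i ∈ s, ‖a i - b i‖ := Finset.sum_nonneg fun _ _ => norm_nonneg _
    rw [h1]
    refine (norm_add_le _ _).trans ?_
    rw [norm_mul, norm_mul, mul_add]
    refine add_le_add ?_ ?_
    · rw [mul_comm, pow_succ]
      refine mul_le_mul_of_nonneg_right ?_ (norm_nonneg _)
      exact hp.trans (le_mul_of_one_le_right (pow_nonneg hB0 _) hB)
    · calc ‖b i‖ * ‖∏ i ∈ s, a i - ∏ i ∈ s, b i‖
          ≤ B * (B ^ s.card * ∑ i ∈ s, ‖a i - b i‖) :=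
            mul_le_mul (hb i) ih (norm_nonneg _) hB0
        _ = _ := by rw [pow_succ]; ring

theorem pc_sub_le {B : ℝ} (hB : 1 ≤ B) (i : ℕ) : ∃ K : ℝ, 0 ≤ K ∧ ∀ V W : Fin R → ℕ → ℂ,
    (∀ s, ∀ j ≤ i, ‖V s j‖ ≤ B) → (∀ s, ∀ j ≤ i, ‖W s j‖ ≤ B) →
    ‖pc V i - pc W i‖ ≤ K * ∑ s, ∑ j ∈ Finset.range (i + 1), ‖V s j - W s j‖ := by
  refine ⟨((Finset.finsuppAntidiag (Finset.univ : Finset (Fin R)) i).card : ℝ) * B ^ R,
    by positivity, fun V W hV hW => ?_⟩
  rw [pc_eq, pc_eq, ← Finset.sum_sub_distrib]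
  refine (norm_sum_le _ _).trans ?_
  rw [mul_assoc, ← nsmul_eq_mul]
  refine Finset.sum_le_card_nsmul _ _ _ fun j hj => ?_
  have h1 := prod_sub_le hB Finset.univ (fun s => V s (j s)) (fun s => W s (j s))
    (fun s => hV s _ (le_of_anti hj s)) (fun s => hW s _ (le_of_anti hj s))
  rw [Finset.card_univ, Fintype.card_fin] at h1
  refine h1.trans (mul_le_mul_of_nonneg_left ?_ (by positivity))
  refine Finset.sum_le_sum fun s _ => ?_
  exact Finset.single_le_sum (f := fun k => ‖V s k - W s k‖) (fun _ _ => norm_nonneg _)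
    (Finset.mem_range.mpr (Nat.lt_succ_of_le (le_of_anti hj s)))

end pc

section action

variable {R T : ℕ} (k : Fin R → ℕ)

/-- the group -/
abbrev QQ (R T : ℕ) (k : Fin R → ℕ) : Type := ∀ a : Fin R × Fin T, Multiplicative (ZMod (k a.1))

/-- the set it acts on -/
abbrev I0 (R T : ℕ) (k n : Fin R → ℕ) : Type := Σ s : Fin R, Fin (n s) × (Fin T × ZMod (k s))

/-- the set it acts on -/
def II (R T : ℕ) (k n : Fin R → ℕ) : Type := I0 R T k n

instance (R T : ℕ) (k n : Fin R → ℕ) : DecidableEq (II R T k n) :=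
  inferInstanceAs (DecidableEq (I0 R T k n))

instance (R T : ℕ) (k n : Fin R → ℕ) [∀ s, NeZero (k s)] : Fintype (II R T k n) :=
  inferInstanceAs (Fintype (I0 R T k n))

/-- the action -/
def act0 (n : Fin R → ℕ) : QQ R T k →* Equiv.Perm (I0 R T k n) where
  toFun q :=
    { toFun := fun x => ⟨x.1, x.2.1, x.2.2.1, x.2.2.2 + (q (x.1, x.2.2.1)).toAdd⟩
      invFun := fun x => ⟨x.1, x.2.1, x.2.2.1, x.2.2.2 - (q (x.1, x.2.2.1)).toAdd⟩
      left_inv := fun x => by simp
      right_inv := fun x => by simp }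
  map_one' := by ext x <;> simp
  map_mul' q q' := by
    refine Equiv.ext fun x => ?_
    simp only [Equiv.coe_fn_mk, Equiv.Perm.coe_mul, Function.comp_apply, Pi.mul_apply, toAdd_mul]
    congr 3
    ring

/-- the action -/
def act (n : Fin R → ℕ) : QQ R T k →* Equiv.Perm (II R T k n) := act0 k n

/-- the number of fixed points on `ℤ/k` -/
noncomputable def fx (k : ℕ) (z : ZMod k) : ℂ := if z = 0 then (k : ℂ) else 0

theorem card_fix [∀ s, NeZero (k s)] (n : Fin R → ℕ) (q : QQ R T k) :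
    (Nat.card {x : II R T k n // act k n q x = x} : ℂ) =
      ∑ s, (n s : ℂ) * ∑ t, fx (k s) (q (s, t)).toAdd := by
  classical
  change (Nat.card {x : I0 R T k n // act0 k n q x = x} : ℂ) = _
  have h1 : ∀ x : I0 R T k n, act0 k n q x = x ↔ (q (x.1, x.2.2.1)).toAdd = 0 := by
    rintro ⟨s, m, t, z⟩
    change (⟨s, m, t, z + (q (s, t)).toAdd⟩ : I0 R T k n) = ⟨s, m, t, z⟩ ↔ (q (s, t)).toAdd = 0
    simp
  rw [Nat.card_eq_fintype_card, Fintype.card_subtype, ← Finset.sum_boole]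
  simp_rw [h1]
  rw [Fintype.sum_sigma]
  refine Finset.sum_congr rfl fun s _ => ?_
  rw [Fintype.sum_prod_type]
  change ∑ _x : Fin (n s), ∑ y : Fin T × ZMod (k s),
    (if (q (s, y.1)).toAdd = 0 then (1 : ℂ) else 0) = _
  rw [Finset.sum_const, Finset.card_univ, Fintype.card_fin, nsmul_eq_mul]
  congr 1
  rw [Fintype.sum_prod_type]
  refine Finset.sum_congr rfl fun t _ => ?_
  change ∑ _y : ZMod (k s), (if (q (s, t)).toAdd = 0 then (1 : ℂ) else 0) = _
  rw [Finset.sum_const, Finset.card_univ, ZMod.card, nsmul_eq_mul, fx]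
  split_ifs <;> simp

/-- the coefficients of the logarithms -/
noncomputable def uu {l : Type} [Fintype l] [DecidableEq l] (q : QQ R T k) (c : GL (l ⊕ l) ℂ)
    (s : Fin R) (j : ℕ) : ℂ :=
  (∑ t, fx (k s) (j • (q (s, t)).toAdd)) * (c.val ^ j).trace

theorem trace_act {l : Type} [Fintype l] [DecidableEq l] [∀ s, NeZero (k s)] (n : Fin R → ℕ)
    (q : QQ R T k) (c : GL (l ⊕ l) ℂ) (j : ℕ) :
    (kr (act k n q) c.val ^ j).trace = ∑ s, (n s : ℂ) * uu k q c s j := by
  rw [kr_pow, trace_kr, ← map_pow, card_fix, Finset.sum_mul]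
  refine Finset.sum_congr rfl fun s _ => ?_
  unfold uu
  rw [mul_assoc]
  rfl

theorem factor {l : Type} [Fintype l] [DecidableEq l] [∀ s, NeZero (k s)] (n : Fin R → ℕ)
    (q : QQ R T k) (c : GL (l ⊕ l) ℂ) :
    ((kr (act k n q) c.val).charpolyRev : ℂ⟦X⟧) =
      ∏ s, ((kr (act k (Pi.single s 1) q) c.val).charpolyRev : ℂ⟦X⟧) ^ n s := by
  refine (LD_charpolyRev _).unique ?_
  have h1 : (PowerSeries.mk fun j => -(kr (act k n q) c.val ^ (j + 1)).trace : ℂ⟦X⟧) =
      ∑ s, n s • (PowerSeries.mk fun j =>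
        -(kr (act k (Pi.single s 1) q) c.val ^ (j + 1)).trace : ℂ⟦X⟧) := by
    ext j
    rw [coeff_mk, map_sum, trace_act, ← Finset.sum_neg_distrib]
    refine Finset.sum_congr rfl fun s _ => ?_
    rw [map_nsmul, coeff_mk, trace_act, Finset.sum_eq_single s]
    · rw [Pi.single_eq_same, nsmul_eq_mul]
      push_cast
      ring
    · intro s' _ hs'
      rw [Pi.single_eq_of_ne hs']
      simp
    · intro h
      exact absurd (Finset.mem_univ _) h
  rw [h1]
  exact LD.prod _ _ _ fun s _ => (LD_charpolyRev _).pow _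

/-- the combination of the coefficients -/
theorem comb {l : Type} [Fintype l] [DecidableEq l] [∀ s, NeZero (k s)] (i : ℕ)
    (q : QQ R T k) (c : GL (l ⊕ l) ℂ) :
    ∑ n ∈ Fintype.piFinset (fun _ : Fin R => Finset.Icc 1 (i + 1)), (∏ s, lam i (n s)) *
      coeff i (krG (act k n q, c) : GL ((II R T k n × l) ⊕ (II R T k n × l)) ℂ) =
      pc (fun s j => if j = 0 then 0 else -uu k q c s j / (j : ℂ)) i := by
  have h1 : ∀ n : Fin R → ℕ,
      coeff i (krG (act k n q, c) : GL ((II R T k n × l) ⊕ (II R T k n × l)) ℂ) =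
      PowerSeries.coeff i (∏ s, ((kr (act k (Pi.single s 1) q) c.val).charpolyRev : ℂ⟦X⟧) ^ n s) := by
    intro n
    rw [← factor, Polynomial.coeff_coe]
    rfl
  simp_rw [h1]
  have h2 : ∑ n ∈ Fintype.piFinset (fun _ : Fin R => Finset.Icc 1 (i + 1)), (∏ s, lam i (n s)) *
      PowerSeries.coeff i (∏ s, ((kr (act k (Pi.single s 1) q) c.val).charpolyRev : ℂ⟦X⟧) ^ n s) =
      PowerSeries.coeff i (∏ s, ∑ m ∈ Finset.Icc 1 (i + 1),
        lam i m • ((kr (act k (Pi.single s 1) q) c.val).charpolyRev : ℂ⟦X⟧) ^ m) := by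
    rw [Finset.prod_univ_sum, map_sum]
    refine Finset.sum_congr rfl fun n _ => ?_
    rw [Finset.prod_smul, PowerSeries.coeff_smul, smul_eq_mul]
  rw [h2]
  unfold pc
  refine coeff_prod_congr fun s j hj => ?_
  rw [extract (LD_charpolyRev _) hj, coeff_mk, coeff_mk]
  change _ = if j = 0 then 0 else -uu k q c s j / (j : ℂ)
  split_ifs with hj0
  · rfl
  · rw [Nat.sub_add_cancel (Nat.one_le_iff_ne_zero.mpr hj0), trace_act,
      Finset.sum_eq_single s]
    · rw [Pi.single_eq_same, Nat.cast_one, one_mul]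
    · intro s' _ hs'
      rw [Pi.single_eq_of_ne hs', Nat.cast_zero, zero_mul]
    · intro h
      exact absurd (Finset.mem_univ _) h

end action

end Pool.Agent.U187.MV
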