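import Pool.Agent.U187.MV.Ac

/-! The coefficients are polynomials in the traces of powers. -/

set_option autoImplicit false
set_option maxHeartbeats 400000

namespace Pool.Agent.U187.MV

open PowerSeries

theorem LD_mem {X : Type} (A : Subalgebra ℂ (X → ℂ)) (F a : X → ℂ⟦X⟧) (hF : ∀ x, LD (F x) (a x))
    (ha : ∀ u, (fun x => PowerSeries.coeff u (a x)) ∈ A) :
    ∀ j, (fun x => PowerSeries.coeff j (F x)) ∈ A := by
  intro j
  induction j using Nat.strong_induction_on with
  | _ j ih =>
    rcases j with _ | j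
    · have h1 : (fun x => PowerSeries.coeff 0 (F x)) = 1 := by
        funext x
        rw [PowerSeries.coeff_zero_eq_constantCoeff_apply, (hF x).1, Pi.one_apply]
      rw [h1]
      exact A.one_mem
    · have h4 : ((j : ℂ) + 1) ≠ 0 := by exact_mod_cast Nat.succ_ne_zero j
      have h1 : (fun x => PowerSeries.coeff (j + 1) (F x)) = ((j : ℂ) + 1)⁻¹ •
          ∑ k ∈ Finset.range (j + 1), (fun x => PowerSeries.coeff k (a x)) *
            (fun x => PowerSeries.coeff (j - k) (F x)) := by
        funext x
        have h2 := congrArg (PowerSeries.coeff j) (hF x).2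
        rw [coeff_derivative, PowerSeries.coeff_mul,
          Finset.Nat.sum_antidiagonal_eq_sum_range_succ_mk] at h2
        rw [Pi.smul_apply, Finset.sum_apply, smul_eq_mul, eq_inv_mul_iff_mul_eq₀ h4, mul_comm, h2]
        rfl
      rw [h1]
      refine A.smul_mem (A.sum_mem fun k hk => A.mul_mem (ha k) (ih _ ?_)) _
      omega

variable {l : Type} [Fintype l] [DecidableEq l]

theorem coeff_mem {X : Type} (A : Subalgebra ℂ (X → ℂ)) (c : X → GL (l ⊕ l) ℂ)
    (ha : ∀ j, 1 ≤ j → (fun x => ((c x).val ^ j).trace) ∈ A) (i : ℕ) :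
    (fun x => coeff i (c x)) ∈ A := by
  have h1 := LD_mem A (fun x => ((c x).val.charpolyRev : ℂ⟦X⟧))
    (fun x => PowerSeries.mk fun j => -((c x).val ^ (j + 1)).trace)
    (fun x => LD_charpolyRev _) (fun u => by
      simp_rw [coeff_mk]
      exact A.neg_mem (ha (u + 1) (by omega))) i
  simp_rw [Polynomial.coeff_coe] at h1
  exact h1

theorem continuous_trace_pow (j : ℕ) : Continuous fun c : GL (l ⊕ l) ℂ => (c.val ^ j).trace :=
  (Units.continuous_val.pow j).matrix_trace

theorem continuous_coeff (i : ℕ) : Continuous (coeff i : GL (l ⊕ l) ℂ → ℂ) := by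
  have h1 := coeff_mem (l := l) (continuousSubalgebra (α := GL (l ⊕ l) ℂ) (R := ℂ) (A := ℂ)) id
    (fun j _ => continuous_trace_pow j) i
  exact h1

end Pool.Agent.U187.MV
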