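import Pool.Agent.K4H40.ST.Defs

/-!
# Mean values and laws of the coefficients of the normalised `L`-polynomials

`F` is a number field, `Ω` an algebraic closure of `F`, `r` a representation of `Gal(Ω/F)` on
`ℂ^l ⊕ ℂ^l` for a finite set `l` (for an abelian variety: the `ℓ`-adic representation, with scalars
extended along an embedding of `ℚ_ℓ` in `ℂ`, in a symplectic basis).
-/

set_option autoImplicit false

namespace Pool.Agent.U187.MV

open NumberField IsDedekindDomain Filter Topology MeasureTheory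
open Pool.Agent.K4H40.ST (IsFrob avg zar extend Kbar)

section satotate

variable {l : Type} [Fintype l] [DecidableEq l]

/-- the group `G¹`: symplectic matrices in the Zariski closure of the image of `r` -/
def G1 {Γ : Type} [Group Γ] (r : Γ →* GL (l ⊕ l) ℂ) : Set (GL (l ⊕ l) ℂ) :=
  {h | h ∈ zar (Set.range r) ∧ (h : Matrix (l ⊕ l) (l ⊕ l) ℂ) ∈ Matrix.symplecticGroup l ℂ}

/-- `C` is a Sato-Tate group of `r`: a compact subgroup of `G¹` which is Zariski dense in `G¹`. -/
structure IsSatoTateGroup {Γ : Type} [Group Γ] (r : Γ →* GL (l ⊕ l) ℂ)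
    (C : Subgroup (GL (l ⊕ l) ℂ)) : Prop where
  compact : IsCompact (C : Set (GL (l ⊕ l) ℂ))
  sub : (C : Set (GL (l ⊕ l) ℂ)) ⊆ G1 r
  dense : G1 r ⊆ zar (C : Set (GL (l ⊕ l) ℂ))

/-- `x v` is in the class of the prime `v` for all but finitely many `v`: it is conjugate in `G¹` to
`N(v)^(-1/2)` times the image of a Frobenius element at `v`. -/
def IsClassSystem (F Ω : Type) [Field F] [NumberField F] [Field Ω] [Algebra F Ω]
    (r : Gal(Ω/F) →* GL (l ⊕ l) ℂ) (C : Subgroup (GL (l ⊕ l) ℂ))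
    (x : HeightOneSpectrum (𝓞 F) → C) : Prop :=
  {v : HeightOneSpectrum (𝓞 F) | ¬ ∃ σ : Gal(Ω/F), IsFrob F Ω v σ ∧ ∃ h ∈ G1 r,
    ((h * (x v : GL (l ⊕ l) ℂ) * h⁻¹ : GL (l ⊕ l) ℂ) : Matrix (l ⊕ l) (l ⊕ l) ℂ) =
        (((Real.sqrt (Ideal.absNorm v.asIdeal))⁻¹ : ℝ) : ℂ) •
          (r σ : Matrix (l ⊕ l) (l ⊕ l) ℂ)}.Finite

/-- the coefficient `a_i` of `T ^ i` in `det (1 - c T)` -/
noncomputable def coeff (i : ℕ) (c : GL (l ⊕ l) ℂ) : ℂ :=
  (Matrix.charpolyRev (c : Matrix (l ⊕ l) (l ⊕ l) ℂ)).coeff i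

/-- The coefficients `a_i` have the mean value predicted by the Sato-Tate group: the average of
`a_i(v)` over the primes `v` of norm at most `N` tends to the integral of `a_i` over the Sato-Tate
group. -/
def MeanValue (F Ω : Type) [Field F] [NumberField F] [Field Ω] [Algebra F Ω]
    (r : Gal(Ω/F) →* GL (l ⊕ l) ℂ) (i : ℕ) : Prop :=
  ∀ C : Subgroup (GL (l ⊕ l) ℂ), IsSatoTateGroup r C →
  ∀ x : HeightOneSpectrum (𝓞 F) → C, IsClassSystem F Ω r C x →
  ∀ [MeasurableSpace C] [BorelSpace C] (μ : Measure C) [IsProbabilityMeasure μ]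
    [μ.IsMulLeftInvariant],
    Tendsto (avg F fun v => coeff i (x v : GL (l ⊕ l) ℂ)) atTop
      (𝓝 (∫ c : C, coeff i (c : GL (l ⊕ l) ℂ) ∂μ))

/-- The coefficients `a_i` are equidistributed for the image of the Haar measure of the Sato-Tate
group. -/
def CoefficientLaw (F Ω : Type) [Field F] [NumberField F] [Field Ω] [Algebra F Ω]
    (r : Gal(Ω/F) →* GL (l ⊕ l) ℂ) (i : ℕ) : Prop :=
  ∀ C : Subgroup (GL (l ⊕ l) ℂ), IsSatoTateGroup r C →
  ∀ x : HeightOneSpectrum (𝓞 F) → C, IsClassSystem F Ω r C x →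
  ∀ [MeasurableSpace C] [BorelSpace C] (μ : Measure C) [IsProbabilityMeasure μ]
    [μ.IsMulLeftInvariant] (f : ℂ → ℂ), Continuous f →
    Tendsto (avg F fun v => f (coeff i (x v : GL (l ⊕ l) ℂ))) atTop
      (𝓝 (∫ c : C, f (coeff i (c : GL (l ⊕ l) ℂ)) ∂μ))

/-- The normalised `L`-polynomials are equidistributed: the same for all coefficients together. -/
def JointLaw (F Ω : Type) [Field F] [NumberField F] [Field Ω] [Algebra F Ω]
    (r : Gal(Ω/F) →* GL (l ⊕ l) ℂ) : Prop :=
  ∀ C : Subgroup (GL (l ⊕ l) ℂ), IsSatoTateGroup r C →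
  ∀ x : HeightOneSpectrum (𝓞 F) → C, IsClassSystem F Ω r C x →
  ∀ [MeasurableSpace C] [BorelSpace C] (μ : Measure C) [IsProbabilityMeasure μ]
    [μ.IsMulLeftInvariant] (f : (ℕ → ℂ) → ℂ), Continuous f →
    Tendsto (avg F fun v => f fun i => coeff i (x v : GL (l ⊕ l) ℂ)) atTop
      (𝓝 (∫ c : C, f (fun i => coeff i (c : GL (l ⊕ l) ℂ)) ∂μ))

end satotate

section tensor

variable {ι l R : Type} [Fintype ι] [DecidableEq ι] [Fintype l] [DecidableEq l] [CommRing R]

/-- the pair of indices of an index of the tensor product -/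
def blk (p : (ι × l) ⊕ (ι × l)) : ι × (l ⊕ l) := (Equiv.prodSumDistrib ι l l).symm p

/-- the tensor product of the permutation matrix of `σ` with `M` -/
def kr (σ : Equiv.Perm ι) (M : Matrix (l ⊕ l) (l ⊕ l) R) :
    Matrix ((ι × l) ⊕ (ι × l)) ((ι × l) ⊕ (ι × l)) R :=
  Matrix.of fun p q => if (blk p).1 = σ (blk q).1 then M (blk p).2 (blk q).2 else 0

omit [Fintype ι] [Fintype l] [DecidableEq l] in
theorem kr_apply (σ : Equiv.Perm ι) (M : Matrix (l ⊕ l) (l ⊕ l) R) (p q : (ι × l) ⊕ (ι × l)) :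
    kr σ M p q = if (blk p).1 = σ (blk q).1 then M (blk p).2 (blk q).2 else 0 := rfl

omit [DecidableEq l] in
theorem kr_mul (σ τ : Equiv.Perm ι) (M N : Matrix (l ⊕ l) (l ⊕ l) R) :
    kr (σ * τ) (M * N) = kr σ M * kr τ N := by
  ext p q
  rw [Matrix.mul_apply]
  simp_rw [kr_apply]
  rw [← (Equiv.prodSumDistrib ι l l).sum_comp, Fintype.sum_prod_type,
    Finset.sum_eq_single (τ (blk q).1)]
  · simp only [blk, Equiv.symm_apply_apply, if_true, Equiv.Perm.coe_mul, Function.comp_apply,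
      Matrix.mul_apply]
    by_cases h : ((Equiv.prodSumDistrib ι l l).symm p).1 =
        σ (τ ((Equiv.prodSumDistrib ι l l).symm q).1)
    · simp [h]
    · simp [h]
  · intro a _ ha
    refine Finset.sum_eq_zero fun b _ => ?_
    have h0 : (blk ((Equiv.prodSumDistrib ι l l) (a, b))) = (a, b) := Equiv.symm_apply_apply _ _
    have h1 : ¬ (blk ((Equiv.prodSumDistrib ι l l) (a, b))).1 = τ (blk q).1 := by rw [h0]; exact ha
    rw [if_neg h1, mul_zero]
  · intro h
    exact absurd (Finset.mem_univ _) h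

omit [Fintype ι] [Fintype l] in
theorem kr_one : kr (1 : Equiv.Perm ι) (1 : Matrix (l ⊕ l) (l ⊕ l) R) = 1 := by
  ext p q
  rw [kr_apply, Matrix.one_apply, Matrix.one_apply, Equiv.Perm.coe_one, id_eq]
  by_cases h : p = q
  · simp [h]
  · rw [if_neg h]
    by_cases h1 : (blk p).1 = (blk q).1
    · rw [if_pos h1, if_neg]
      intro h2
      exact h ((Equiv.prodSumDistrib ι l l).symm.injective (Prod.ext h1 h2))
    · rw [if_neg h1]

/-- the tensor product of a permutation and an invertible matrix -/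
def krG : Equiv.Perm ι × GL (l ⊕ l) R →* GL ((ι × l) ⊕ (ι × l)) R :=
  MonoidHom.toHomUnits
    { toFun := fun p => kr p.1 p.2.val
      map_one' := kr_one
      map_mul' := fun p q => kr_mul p.1 q.1 p.2.val q.2.val }

theorem val_krG (σ : Equiv.Perm ι) (c : GL (l ⊕ l) R) :
    (krG (σ, c) : GL ((ι × l) ⊕ (ι × l)) R).val = kr σ c.val := rfl

/-- The tensor product of the representation `ρ` and the permutation representation `π`. If `ρ`
comes from the abelian variety `A` and `π` from the action on the embeddings of a finite étale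
algebra `E` over `F`, then this comes from the Weil restriction of `A` from `E` to `F`. -/
def tens {Γ : Type} [Group Γ] (ρ : Γ →* GL (l ⊕ l) R) (π : Γ →* Equiv.Perm ι) :
    Γ →* GL ((ι × l) ⊕ (ι × l)) R := krG.comp (π.prod ρ)

end tensor

/-- The class `𝒜` of representations is closed under Weil restriction from abelian extensions: with
`ρ` it contains the tensor products of `ρ` with the permutation representations on nonempty finite
sets of the Galois groups of abelian extensions. -/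
def IsWeilClosed (F Ω R : Type) [Field F] [Field Ω] [Algebra F Ω] [CommRing R]
    (𝒜 : ∀ (l : Type) [Fintype l] [DecidableEq l], (Gal(Ω/F) →* GL (l ⊕ l) R) → Prop) : Prop :=
  ∀ (l : Type) [Fintype l] [DecidableEq l] (ρ : Gal(Ω/F) →* GL (l ⊕ l) R), 𝒜 l ρ →
  ∀ (ι : Type) [Fintype ι] [DecidableEq ι] [Nonempty ι] (π : Gal(Ω/F) →* Equiv.Perm ι),
    IsOpen (π.ker : Set Gal(Ω/F)) → (∀ σ τ, π σ * π τ = π τ * π σ) → 𝒜 (ι × l) (tens ρ π)

end Pool.Agent.U187.MV
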