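import Pool.Agent.U187.MV.Al

/-! Traces on compact groups of symplectic matrices are real. -/

set_option autoImplicit false
set_option maxHeartbeats 400000
set_option linter.style.haveILetI false

namespace Pool.Agent.U187.MV

open Matrix

variable {n : Type} [Fintype n] [DecidableEq n]

theorem eig_le {C : Subgroup (GL n ℂ)} (hC : IsCompact (C : Set (GL n ℂ))) {g : GL n ℂ}
    (hg : g ∈ C) {α : ℂ} {v : n → ℂ} (hv : v ≠ 0) (h : g.val *ᵥ v = α • v) : ‖α‖ ≤ 1 := by
  obtain ⟨i, hi⟩ : ∃ i, v i ≠ 0 := by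
    by_contra hcon
    push Not at hcon
    exact hv (funext hcon)
  have hent : ∀ j, ∃ D : ℝ, ∀ c ∈ C, ‖c.val i j‖ ≤ D := fun j =>
    hC.exists_bound_of_continuousOn
      (Continuous.continuousOn (Continuous.matrix_elem Units.continuous_val i j))
  choose D hD using hent
  have hpow : ∀ m : ℕ, (g ^ m).val *ᵥ v = α ^ m • v := by
    intro m
    induction m with
    | zero => simp
    | succ m ih =>
      rw [pow_succ', Units.val_mul, ← mulVec_mulVec, ih, mulVec_smul, h, smul_smul, pow_succ]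
  have hbd : ∀ m : ℕ, ‖α‖ ^ m ≤ (∑ j, D j * ‖v j‖) / ‖v i‖ := by
    intro m
    rw [le_div_iff₀ (norm_pos_iff.mpr hi), ← norm_pow, ← norm_mul]
    have h1 := congrFun (hpow m) i
    rw [Pi.smul_apply, smul_eq_mul] at h1
    rw [← h1]
    change ‖∑ j, (g ^ m).val i j * v j‖ ≤ _
    refine (norm_sum_le _ _).trans (Finset.sum_le_sum fun j _ => ?_)
    rw [norm_mul]
    exact mul_le_mul_of_nonneg_right (hD j _ (C.pow_mem hg m)) (norm_nonneg _)
  by_contra hcon
  push Not at hcon
  obtain ⟨m, hm⟩ := pow_unbounded_of_one_lt ((∑ j, D j * ‖v j‖) / ‖v i‖) hcon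
  exact absurd (hbd m) (not_le.mpr hm)

theorem root_norm {C : Subgroup (GL n ℂ)} (hC : IsCompact (C : Set (GL n ℂ))) {g : GL n ℂ}
    (hg : g ∈ C) {α : ℂ} (hα : α ∈ g.val.charpoly.roots) : ‖α‖ = 1 := by
  have hroot : (Matrix.scalar n α - g.val).det = 0 := by
    rw [← Matrix.eval_charpoly]
    exact (Polynomial.mem_roots'.mp hα).2
  obtain ⟨v, hv, hv'⟩ := Matrix.exists_mulVec_eq_zero_iff.mpr hroot
  have h1 : g.val *ᵥ v = α • v := by
    rw [sub_mulVec, sub_eq_zero] at hv'
    rw [← hv']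
    ext i
    simp [Matrix.scalar_apply, Matrix.mulVec_diagonal]
  have hα0 : α ≠ 0 := by
    rintro rfl
    rw [zero_smul] at h1
    apply hv
    have h2 : (g⁻¹ : GL n ℂ).val *ᵥ (g.val *ᵥ v) = 0 := by rw [h1, mulVec_zero]
    rwa [mulVec_mulVec, ← Units.val_mul, inv_mul_cancel, Units.val_one, one_mulVec] at h2
  have h2 : (g⁻¹ : GL n ℂ).val *ᵥ v = α⁻¹ • v := by
    have h3 : (g⁻¹ : GL n ℂ).val *ᵥ (g.val *ᵥ v) = v := by
      rw [mulVec_mulVec, ← Units.val_mul, inv_mul_cancel, Units.val_one, one_mulVec]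
    rw [h1, mulVec_smul] at h3
    rw [← h3, smul_smul, inv_mul_cancel₀ hα0, one_smul, h3]
  have h3 := eig_le hC hg hv h1
  have h4 := eig_le hC (C.inv_mem hg) hv h2
  rw [norm_inv] at h4
  exact le_antisymm h3 ((inv_le_one₀ (norm_pos_iff.mpr hα0)).mp h4)

theorem roots_inv (g : GL n ℂ) : (g⁻¹ : GL n ℂ).val.charpoly.roots =
    g.val.charpoly.roots.map fun α => α⁻¹ := by
  have hne : ∀ α ∈ g.val.charpoly.roots, α ≠ 0 := by
    rintro α hα rfl
    have h1 : (Matrix.scalar n (0 : ℂ) - g.val).det = 0 := by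
      rw [← Matrix.eval_charpoly]
      exact (Polynomial.mem_roots'.mp hα).2
    rw [map_zero, zero_sub, Matrix.det_neg] at h1
    rcases mul_eq_zero.mp h1 with h2 | h2
    · exact pow_ne_zero _ (neg_ne_zero.mpr one_ne_zero) h2
    · exact ((Matrix.isUnit_iff_isUnit_det _).mp g.isUnit).ne_zero h2
  have key : ∀ s : Multiset ℂ, (∀ α ∈ s, α ≠ 0) →
      (s.map fun α => (1 - Polynomial.C α * Polynomial.X : Polynomial ℂ)).prod =
      Polynomial.C (s.map fun α => -α).prod *
        (s.map fun α => (Polynomial.X - Polynomial.C α⁻¹ : Polynomial ℂ)).prod := by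
    intro s
    induction s using Multiset.induction_on with
    | empty => intro _; simp
    | cons α s ih =>
      intro h
      have hα : α ≠ 0 := h α (Multiset.mem_cons_self _ _)
      rw [Multiset.map_cons, Multiset.prod_cons, ih fun β hβ => h β (Multiset.mem_cons_of_mem hβ),
        Multiset.map_cons, Multiset.prod_cons, Multiset.map_cons, Multiset.prod_cons,
        Polynomial.C_mul]
      have h1 : (1 - Polynomial.C α * Polynomial.X : Polynomial ℂ) =
          Polynomial.C (-α) * (Polynomial.X - Polynomial.C α⁻¹) := by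
        rw [mul_sub, ← Polynomial.C_mul, neg_mul, mul_inv_cancel₀ hα, Polynomial.C_neg,
          Polynomial.C_neg, Polynomial.C_1]
        ring
      rw [h1]
      ring
  have h1 : (g⁻¹ : GL n ℂ).val = g.val⁻¹ := Matrix.coe_units_inv g
  have h2 := Matrix.charpoly_inv g.val g.isUnit
  rw [charpolyRev_eq, key _ hne] at h2
  have h3 : (g.val⁻¹).charpoly = Polynomial.C ((-1) ^ Fintype.card n *
      Ring.inverse g.val.det * (g.val.charpoly.roots.map fun α => -α).prod) *
      (g.val.charpoly.roots.map fun α =>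
        (Polynomial.X - Polynomial.C α⁻¹ : Polynomial ℂ)).prod := by
    rw [h2, Polynomial.C_mul, Polynomial.C_mul, Polynomial.C_pow, Polynomial.C_neg,
      Polynomial.C_1]
    ring
  have h4 : ((-1) ^ Fintype.card n *
      Ring.inverse g.val.det * (g.val.charpoly.roots.map fun α => -α).prod : ℂ) ≠ 0 := by
    intro h0
    rw [h0, Polynomial.C_0, zero_mul] at h3
    exact (Matrix.charpoly_monic _).ne_zero h3
  rw [h1, h3, Polynomial.roots_C_mul _ h4]
  have h5 : (g.val.charpoly.roots.map fun α =>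
      (Polynomial.X - Polynomial.C α⁻¹ : Polynomial ℂ)) =
      (g.val.charpoly.roots.map fun α => α⁻¹).map fun β => Polynomial.X - Polynomial.C β := by
    rw [Multiset.map_map]
    rfl
  rw [h5, Polynomial.roots_multiset_prod_X_sub_C]

theorem trace_inv_conj {C : Subgroup (GL n ℂ)} (hC : IsCompact (C : Set (GL n ℂ))) {g : GL n ℂ}
    (hg : g ∈ C) : (g⁻¹ : GL n ℂ).val.trace = (starRingEnd ℂ) g.val.trace := by
  rw [Matrix.trace_eq_sum_roots_charpoly, Matrix.trace_eq_sum_roots_charpoly, roots_inv,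
    map_multiset_sum, Multiset.map_congr rfl fun α hα => ?_]
  rw [Complex.inv_eq_conj (root_norm hC hg hα)]

variable {l : Type} [Fintype l] [DecidableEq l]

theorem trace_inv_sp {g : GL (l ⊕ l) ℂ} (hg : g.val ∈ symplecticGroup l ℂ) :
    (g⁻¹ : GL (l ⊕ l) ℂ).val.trace = g.val.trace := by
  have h1 := SymplecticGroup.mem_iff.mp hg
  have h2 : (g⁻¹ : GL (l ⊕ l) ℂ).val * J l ℂ = J l ℂ * g.valᵀ := by
    calc (g⁻¹ : GL (l ⊕ l) ℂ).val * J l ℂ
        = (g⁻¹ : GL (l ⊕ l) ℂ).val * (g.val * J l ℂ * g.valᵀ) := by rw [h1]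
      _ = ((g⁻¹ : GL (l ⊕ l) ℂ).val * g.val) * J l ℂ * g.valᵀ := by
          simp only [Matrix.mul_assoc]
      _ = _ := by rw [← Units.val_mul, inv_mul_cancel, Units.val_one, Matrix.one_mul]
  have h3 : (g⁻¹ : GL (l ⊕ l) ℂ).val = -(J l ℂ * g.valᵀ * J l ℂ) := by
    rw [← h2, Matrix.mul_assoc, J_squared, Matrix.mul_neg, Matrix.mul_one, neg_neg]
  rw [h3, trace_neg, Matrix.mul_assoc, trace_mul_comm, Matrix.mul_assoc, J_squared,
    Matrix.mul_neg, Matrix.mul_one, trace_neg, neg_neg, trace_transpose]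

theorem trace_real {C : Subgroup (GL (l ⊕ l) ℂ)} (hC : IsCompact (C : Set (GL (l ⊕ l) ℂ)))
    (hsp : ∀ c ∈ C, c.val ∈ symplecticGroup l ℂ) {c : GL (l ⊕ l) ℂ} (hc : c ∈ C) (j : ℕ) :
    (starRingEnd ℂ) (c.val ^ j).trace = (c.val ^ j).trace := by
  have h1 := trace_inv_conj hC (C.pow_mem hc j)
  rw [trace_inv_sp (hsp _ (C.pow_mem hc j))] at h1
  exact h1.symm

theorem coeff_real {C : Subgroup (GL (l ⊕ l) ℂ)} (hC : IsCompact (C : Set (GL (l ⊕ l) ℂ)))
    (hsp : ∀ c ∈ C, c.val ∈ symplecticGroup l ℂ) {c : GL (l ⊕ l) ℂ} (hc : c ∈ C) (i : ℕ) :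
    (starRingEnd ℂ) (coeff i c) = coeff i c := by
  have h1 : c.val.charpolyRev.map (starRingEnd ℂ) = (c.val.map (starRingEnd ℂ)).charpolyRev := by
    unfold Matrix.charpolyRev
    have h2 := RingHom.map_det (Polynomial.mapRingHom (starRingEnd ℂ))
      (1 - (Polynomial.X : Polynomial ℂ) • c.val.map Polynomial.C)
    rw [Polynomial.coe_mapRingHom] at h2
    rw [h2]
    congr 1
    ext a b k
    simp [Matrix.sub_apply, Matrix.one_apply, apply_ite]
  have h2 : (c.val.map (starRingEnd ℂ)).charpolyRev = c.val.charpolyRev := by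
    have h3 := LD_charpolyRev (c.val.map (starRingEnd ℂ))
    have h4 : (PowerSeries.mk fun j => -((c.val.map (starRingEnd ℂ)) ^ (j + 1)).trace) =
        (PowerSeries.mk fun j => -(c.val ^ (j + 1)).trace) := by
      ext j
      rw [PowerSeries.coeff_mk, PowerSeries.coeff_mk, ← trace_real hC hsp hc (j + 1)]
      have h5 : (c.val.map (starRingEnd ℂ)) ^ (j + 1) = (c.val ^ (j + 1)).map (starRingEnd ℂ) :=
        (map_pow (starRingEnd ℂ).mapMatrix c.val (j + 1)).symm
      rw [h5]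
      congr 1
      exact (AddMonoidHom.map_trace (starRingEnd ℂ).toAddMonoidHom (c.val ^ (j + 1))).symm
    rw [h4] at h3
    exact Polynomial.coe_injective ℂ (h3.unique (LD_charpolyRev c.val))
  unfold coeff
  rw [← Polynomial.coeff_map, h1, h2]

end Pool.Agent.U187.MV
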