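import Pool.Agent.U187.MV.Defs

/-! Tensor products of permutations and matrices. -/

set_option autoImplicit false
set_option maxHeartbeats 400000

namespace Pool.Agent.U187.MV

open Matrix

section

variable {ι l R : Type} [Fintype ι] [DecidableEq ι] [Fintype l] [DecidableEq l] [CommRing R]

omit [Fintype ι] [DecidableEq ι] [Fintype l] [DecidableEq l] in
theorem blk_mk (a : ι) (b : l ⊕ l) : blk (Equiv.prodSumDistrib ι l l (a, b)) = (a, b) :=
  Equiv.symm_apply_apply _ _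

theorem kr_pow (σ : Equiv.Perm ι) (M : Matrix (l ⊕ l) (l ⊕ l) R) (j : ℕ) :
    kr σ M ^ j = kr (σ ^ j) (M ^ j) := by
  induction j with
  | zero => rw [pow_zero, pow_zero, pow_zero, kr_one]
  | succ j ih => rw [pow_succ, pow_succ, pow_succ, ih, kr_mul]

omit [DecidableEq l] in
theorem trace_kr (σ : Equiv.Perm ι) (M : Matrix (l ⊕ l) (l ⊕ l) R) :
    (kr σ M).trace = (Nat.card {a : ι // σ a = a} : R) * M.trace := by
  classical
  unfold Matrix.trace
  rw [← (Equiv.prodSumDistrib ι l l).sum_comp, Fintype.sum_prod_type]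
  have h1 : ∀ (a : ι) (b : l ⊕ l), (kr σ M).diag (Equiv.prodSumDistrib ι l l (a, b)) =
      (if σ a = a then 1 else 0) * M b b := by
    intro a b
    rw [diag_apply, kr_apply, blk_mk]
    by_cases h : σ a = a
    · rw [if_pos h.symm, if_pos h, one_mul]
    · rw [if_neg (fun h' => h h'.symm), if_neg h, zero_mul]
  simp_rw [h1, ← Finset.mul_sum]
  rw [← Finset.sum_mul]
  congr 1
  rw [Finset.sum_boole, Nat.card_eq_fintype_card, Fintype.card_subtype]

omit [Fintype ι] [Fintype l] in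
theorem J_kr : J (ι × l) R = kr (1 : Equiv.Perm ι) (J l R) := by
  ext p q
  rw [kr_apply, Equiv.Perm.coe_one, id_eq]
  rcases p with ⟨a, i⟩ | ⟨a, i⟩ <;> rcases q with ⟨b, j⟩ | ⟨b, j⟩ <;>
    simp [J, blk, Matrix.one_apply, Prod.ext_iff] <;> by_cases h : a = b <;> simp [h]

omit [Fintype ι] [Fintype l] [DecidableEq l] in
theorem kr_transpose (σ : Equiv.Perm ι) (M : Matrix (l ⊕ l) (l ⊕ l) R) :
    (kr σ M)ᵀ = kr σ⁻¹ Mᵀ := by
  ext p q
  rw [transpose_apply, kr_apply, kr_apply, transpose_apply]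
  by_cases h : (blk q).1 = σ (blk p).1
  · rw [if_pos h, if_pos]
    rw [h]
    exact (Equiv.symm_apply_apply σ _).symm
  · rw [if_neg h, if_neg]
    intro h'
    apply h
    rw [h']
    exact (Equiv.apply_symm_apply σ _).symm

omit [Fintype ι] [Fintype l] [DecidableEq l] in
theorem kr_inj [Nonempty ι] {σ : Equiv.Perm ι} {M N : Matrix (l ⊕ l) (l ⊕ l) R}
    (h : kr σ M = kr σ N) : M = N := by
  obtain ⟨a⟩ := (inferInstance : Nonempty ι)
  ext i j
  have h1 := congrFun (congrFun h (Equiv.prodSumDistrib ι l l (σ a, i)))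
    (Equiv.prodSumDistrib ι l l (a, j))
  rw [kr_apply, kr_apply, blk_mk, blk_mk, if_pos rfl, if_pos rfl] at h1
  exact h1

theorem kr_J (σ : Equiv.Perm ι) (M : Matrix (l ⊕ l) (l ⊕ l) R) :
    kr σ M * J (ι × l) R * (kr σ M)ᵀ = kr 1 (M * J l R * Mᵀ) := by
  rw [J_kr, kr_transpose, ← kr_mul, ← kr_mul, mul_one, mul_inv_cancel]

theorem kr_sp {σ : Equiv.Perm ι} {M : Matrix (l ⊕ l) (l ⊕ l) R}
    (h : M ∈ symplecticGroup l R) : kr σ M ∈ symplecticGroup (ι × l) R := by
  rw [SymplecticGroup.mem_iff, kr_J, SymplecticGroup.mem_iff.mp h, ← J_kr]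

theorem sp_of_kr [Nonempty ι] {σ : Equiv.Perm ι} {M : Matrix (l ⊕ l) (l ⊕ l) R}
    (h : kr σ M ∈ symplecticGroup (ι × l) R) : M ∈ symplecticGroup l R := by
  rw [SymplecticGroup.mem_iff, kr_J, J_kr] at h
  exact SymplecticGroup.mem_iff.mpr (kr_inj h)

theorem det_kr_one (M : Matrix (l ⊕ l) (l ⊕ l) R) :
    (kr (1 : Equiv.Perm ι) M).det = M.det ^ Fintype.card ι := by
  have h1 : kr (1 : Equiv.Perm ι) M = (kroneckerMap (· * ·) (1 : Matrix ι ι R) M).submatrix
      (Equiv.prodSumDistrib ι l l).symm (Equiv.prodSumDistrib ι l l).symm := by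
    ext p q
    rw [kr_apply, submatrix_apply, kroneckerMap_apply, Equiv.Perm.coe_one, id_eq]
    change (if (blk p).1 = (blk q).1 then M (blk p).2 (blk q).2 else 0) =
      (1 : Matrix ι ι R) (blk p).1 (blk q).1 * M (blk p).2 (blk q).2
    rw [Matrix.one_apply]
    split_ifs <;> simp
  rw [h1, det_submatrix_equiv_self, det_kronecker, det_one, one_pow, one_mul]

theorem isUnit_of_kr [Nonempty ι] {σ : Equiv.Perm ι} {M : Matrix (l ⊕ l) (l ⊕ l) R}
    (h : IsUnit (kr σ M).det) : IsUnit M.det := by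
  have h1 : kr σ M = kr σ 1 * kr 1 M := by rw [← kr_mul, mul_one, one_mul]
  rw [h1, det_mul, det_kr_one] at h
  have h2 := isUnit_of_mul_isUnit_right h
  exact (isUnit_pow_iff Fintype.card_ne_zero).mp h2

omit [Fintype ι] [Fintype l] [DecidableEq l] in
theorem kr_smul (σ : Equiv.Perm ι) (a : R) (M : Matrix (l ⊕ l) (l ⊕ l) R) :
    kr σ (a • M) = a • kr σ M := by
  ext p q
  rw [kr_apply, Matrix.smul_apply, Matrix.smul_apply, kr_apply]
  split_ifs <;> simp

theorem extend_tens {Γ : Type} [Group Γ] (ρ : Γ →* GL (l ⊕ l) R) (π : Γ →* Equiv.Perm ι)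
    (e : R →+* ℂ) : Pool.Agent.K4H40.ST.extend (tens ρ π) e =
      tens (Pool.Agent.K4H40.ST.extend ρ e) π := by
  ext γ p q
  change e (kr (π γ) (ρ γ).val p q) = kr (π γ) ((ρ γ).val.map e) p q
  rw [kr_apply, kr_apply, Matrix.map_apply]
  split_ifs <;> simp

end

section

variable {ι l : Type} [Fintype ι] [DecidableEq ι] [Fintype l] [DecidableEq l]

omit [Fintype ι] [Fintype l] [DecidableEq l] in
theorem continuous_kr (σ : Equiv.Perm ι) :
    Continuous fun M : Matrix (l ⊕ l) (l ⊕ l) ℂ => kr σ M := by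
  refine continuous_matrix fun p q => ?_
  simp_rw [kr_apply]
  by_cases h : (blk p).1 = σ (blk q).1
  · simp_rw [if_pos h]
    exact continuous_id.matrix_elem _ _
  · simp_rw [if_neg h]
    exact continuous_const

theorem continuous_krG (σ : Equiv.Perm ι) :
    Continuous fun c : GL (l ⊕ l) ℂ => (krG (σ, c) : GL ((ι × l) ⊕ (ι × l)) ℂ) := by
  refine Units.continuous_iff.mpr ⟨?_, ?_⟩
  · exact (continuous_kr σ).comp Units.continuous_val
  · have h1 : ∀ c : GL (l ⊕ l) ℂ, ((krG (σ, c) : GL ((ι × l) ⊕ (ι × l)) ℂ)⁻¹ : GL _ ℂ).val =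
        kr σ⁻¹ (c⁻¹ : GL (l ⊕ l) ℂ).val := fun c => by
      rw [← map_inv]
      rfl
    refine Continuous.congr ?_ fun c => (h1 c).symm
    exact (continuous_kr σ⁻¹).comp (Units.continuous_val.comp continuous_inv)

end

end Pool.Agent.U187.MV
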