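import Pool.Agent.U187.MV.Ps
import Pool.Agent.U187.MV.Kr
import Pool.Agent.Helper605.TraceR

/-! Newton's identities for the reversed characteristic polynomial. -/

set_option autoImplicit false
set_option maxHeartbeats 400000

namespace Pool.Agent.U187.MV

open PowerSeries

theorem LD_lin (α : ℂ) : LD ((1 - Polynomial.C α * Polynomial.X : Polynomial ℂ) : ℂ⟦X⟧)
    (PowerSeries.mk fun j => -α ^ (j + 1)) := by
  have h0 : ((1 - Polynomial.C α * Polynomial.X : Polynomial ℂ) : ℂ⟦X⟧) =
      1 - PowerSeries.C α * PowerSeries.X := by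
    rw [Polynomial.coe_sub, Polynomial.coe_one, Polynomial.coe_mul, Polynomial.coe_C,
      Polynomial.coe_X]
  rw [h0]
  refine ⟨by simp, ?_⟩
  have h1 : d⁄dX ℂ (1 - PowerSeries.C α * PowerSeries.X : ℂ⟦X⟧) = -PowerSeries.C α := by
    rw [map_sub, Derivation.leibniz, derivative_X, derivative_C, smul_zero, add_zero, smul_eq_mul,
      mul_one, Derivation.map_one_eq_zero, zero_sub]
  rw [h1, mul_sub, mul_one, ← mul_assoc]
  ext n
  rcases n with _ | n
  · rw [map_sub, coeff_mk, PowerSeries.coeff_zero_mul_X, map_neg, PowerSeries.coeff_zero_C]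
    ring
  · rw [map_sub, coeff_mk, PowerSeries.coeff_succ_mul_X, PowerSeries.coeff_mul_C, coeff_mk, map_neg,
      PowerSeries.coeff_C, if_neg (Nat.succ_ne_zero n)]
    ring

theorem LD_multiset (s : Multiset ℂ) :
    LD ((s.map fun α => (1 - Polynomial.C α * Polynomial.X : Polynomial ℂ)).prod : Polynomial ℂ)
      (PowerSeries.mk fun j => -(s.map fun α => α ^ (j + 1)).sum) := by
  induction s using Multiset.induction_on with
  | empty =>
    have h1 : (PowerSeries.mk fun j : ℕ => -((0 : Multiset ℂ).map fun α => α ^ (j + 1)).sum) =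
        (0 : ℂ⟦X⟧) := by
      ext n; simp
    rw [h1]
    simpa using LD.one
  | cons α s ih =>
    rw [Multiset.map_cons, Multiset.prod_cons, Polynomial.coe_mul]
    have h1 : (PowerSeries.mk fun j : ℕ => -((α ::ₘ s).map fun α => α ^ (j + 1)).sum) =
        (PowerSeries.mk fun j => -α ^ (j + 1)) +
          (PowerSeries.mk fun j => -(s.map fun α => α ^ (j + 1)).sum) := by
      ext n
      rw [map_add, coeff_mk, coeff_mk, coeff_mk, Multiset.map_cons, Multiset.sum_cons]
      ring
    rw [h1]
    exact (LD_lin α).mul ih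

theorem reverse_multiset (s : Multiset ℂ) :
    ((s.map fun α => (Polynomial.X - Polynomial.C α : Polynomial ℂ)).prod).reverse =
      (s.map fun α => (1 - Polynomial.C α * Polynomial.X : Polynomial ℂ)).prod := by
  induction s using Multiset.induction_on with
  | empty =>
    rw [Multiset.map_zero, Multiset.map_zero, Multiset.prod_zero, ← Polynomial.C_1,
      Polynomial.reverse_C]
  | cons α s ih =>
    rw [Multiset.map_cons, Multiset.prod_cons, Polynomial.reverse_mul_of_domain, ih,
      Multiset.map_cons, Multiset.prod_cons]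
    congr 1
    rw [Polynomial.reverse, Polynomial.natDegree_X_sub_C]
    ext n
    rw [Polynomial.coeff_reflect]
    rcases n with _ | _ | n
    · simp
    · simp [Polynomial.coeff_one]
    · rw [Polynomial.revAt_eq_self_of_lt (by omega)]
      simp [Polynomial.coeff_X, Polynomial.coeff_one]

theorem trace_pow {n : Type} [Fintype n] [DecidableEq n] (M : Matrix n n ℂ) (k : ℕ) :
    (M ^ k).trace = (M.charpoly.roots.map fun z => z ^ k).sum := by
  let e := Fintype.equivFin n
  have h1 := Pool.Agent.Helper605.trace_pow_roots (Fintype.card n) (Matrix.reindex e e M) k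
  rw [Matrix.charpoly_reindex] at h1
  rw [← h1]
  have h2 : Matrix.reindex e e M ^ k = Matrix.reindex e e (M ^ k) :=
    (map_pow (Matrix.reindexAlgEquiv ℂ ℂ e) M k).symm
  rw [h2, Matrix.trace, Matrix.trace, ← e.sum_comp]
  simp

theorem charpolyRev_eq {n : Type} [Fintype n] [DecidableEq n] (M : Matrix n n ℂ) :
    M.charpolyRev = (M.charpoly.roots.map fun α =>
      (1 - Polynomial.C α * Polynomial.X : Polynomial ℂ)).prod := by
  have h1 := (IsAlgClosed.splits M.charpoly).eq_prod_roots
  rw [(Matrix.charpoly_monic M).leadingCoeff, Polynomial.C_1, one_mul] at h1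
  rw [← Matrix.reverse_charpoly]
  conv_lhs => rw [h1]
  exact reverse_multiset _

theorem LD_charpolyRev {n : Type} [Fintype n] [DecidableEq n] (M : Matrix n n ℂ) :
    LD (M.charpolyRev : ℂ⟦X⟧) (PowerSeries.mk fun j => -(M ^ (j + 1)).trace) := by
  rw [charpolyRev_eq]
  simp_rw [trace_pow]
  exact LD_multiset _

end Pool.Agent.U187.MV
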