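import Mathlib

/-! Logarithmic derivatives of power series, and their coefficients from powers. -/

set_option autoImplicit false
set_option maxHeartbeats 400000

namespace Pool.Agent.U187.MV

open PowerSeries

/-- `a` is the logarithmic derivative of `F`, which has constant term `1` -/
def LD (F a : ℂ⟦X⟧) : Prop := constantCoeff F = 1 ∧ d⁄dX ℂ F = a * F

theorem LD.one : LD 1 0 := ⟨by simp, by simp⟩

theorem LD.mul {F G a b : ℂ⟦X⟧} (hF : LD F a) (hG : LD G b) : LD (F * G) (a + b) := by
  refine ⟨by rw [map_mul, hF.1, hG.1, one_mul], ?_⟩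
  rw [Derivation.leibniz, hF.2, hG.2, smul_eq_mul, smul_eq_mul]
  ring

theorem LD.pow {F a : ℂ⟦X⟧} (hF : LD F a) (n : ℕ) : LD (F ^ n) (n • a) := by
  induction n with
  | zero => simpa using LD.one
  | succ n ih => rw [pow_succ, succ_nsmul]; exact ih.mul hF

theorem LD.prod {ι : Type} (s : Finset ι) (F a : ι → ℂ⟦X⟧) (h : ∀ i ∈ s, LD (F i) (a i)) :
    LD (∏ i ∈ s, F i) (∑ i ∈ s, a i) := by
  classical
  induction s using Finset.induction_on with
  | empty => simpa using LD.one
  | insert i s hi ih =>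
    rw [Finset.prod_insert hi, Finset.sum_insert hi]
    exact (h i (Finset.mem_insert_self _ _)).mul (ih fun j hj => h j (Finset.mem_insert_of_mem hj))

theorem LD.unique {F G a : ℂ⟦X⟧} (hF : LD F a) (hG : LD G a) : F = G := by
  ext n
  induction n using Nat.strong_induction_on with
  | _ n ih =>
    rcases n with _ | n
    · rw [PowerSeries.coeff_zero_eq_constantCoeff_apply, PowerSeries.coeff_zero_eq_constantCoeff_apply,
        hF.1, hG.1]
    · have h1 := congrArg (PowerSeries.coeff n) hF.2
      have h2 := congrArg (PowerSeries.coeff n) hG.2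
      rw [coeff_derivative, PowerSeries.coeff_mul] at h1 h2
      have h3 : ∑ p ∈ Finset.HasAntidiagonal.antidiagonal n, PowerSeries.coeff p.1 a * PowerSeries.coeff p.2 F =
          ∑ p ∈ Finset.HasAntidiagonal.antidiagonal n, PowerSeries.coeff p.1 a * PowerSeries.coeff p.2 G := by
        refine Finset.sum_congr rfl fun p hp => ?_
        rw [ih p.2 (by have := Finset.HasAntidiagonal.mem_antidiagonal.mp hp; omega)]
      rw [h3, ← h2] at h1
      have h4 : ((n : ℂ) + 1) ≠ 0 := by exact_mod_cast Nat.succ_ne_zero n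
      exact mul_right_cancel₀ h4 h1

/-- the polynomials in `n` which give the coefficients of `F ^ n` -/
noncomputable def pp (a : ℂ⟦X⟧) : ℕ → Polynomial ℂ
  | 0 => 1
  | j + 1 => Polynomial.C ((j : ℂ) + 1)⁻¹ * Polynomial.X *
      ∑ i : Fin (j + 1), Polynomial.C (PowerSeries.coeff (j - i) a) * pp a i

theorem pp_eval {F a : ℂ⟦X⟧} (hF : LD F a) (n : ℕ) : ∀ j : ℕ,
    PowerSeries.coeff j (F ^ n) = (pp a j).eval (n : ℂ) := by
  intro j
  induction j using Nat.strong_induction_on with
  | _ j ih =>
    rcases j with _ | j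
    · rw [PowerSeries.coeff_zero_eq_constantCoeff_apply, (hF.pow n).1, pp, Polynomial.eval_one]
    · have h1 := congrArg (PowerSeries.coeff j) (hF.pow n).2
      rw [coeff_derivative, smul_mul_assoc, map_nsmul, PowerSeries.coeff_mul,
        Finset.Nat.sum_antidiagonal_eq_sum_range_succ_mk] at h1
      have h4 : ((j : ℂ) + 1) ≠ 0 := by exact_mod_cast Nat.succ_ne_zero j
      rw [pp, Polynomial.eval_mul, Polynomial.eval_mul, Polynomial.eval_C, Polynomial.eval_X,
        Polynomial.eval_finsetSum]
      have h2 : ∑ i : Fin (j + 1), (Polynomial.C (PowerSeries.coeff (j - i) a) * pp a i).eval (n : ℂ) =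
          ∑ k ∈ Finset.range (j + 1), PowerSeries.coeff k a * PowerSeries.coeff (j - k) (F ^ n) := by
        rw [← Finset.sum_range_reflect, Finset.sum_range]
        refine Finset.sum_congr rfl fun i _ => ?_
        have hi := i.2
        have e1 : j + 1 - 1 - (i : ℕ) = j - i := by omega
        have e2 : j - (j - (i : ℕ)) = i := by omega
        rw [Polynomial.eval_mul, Polynomial.eval_C, ← ih i hi, e1, e2]
      rw [h2, eq_comm, mul_assoc, inv_mul_eq_iff_eq_mul₀ h4, mul_comm ((j : ℂ) + 1), h1,
        nsmul_eq_mul]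

theorem pp_deg (a : ℂ⟦X⟧) : ∀ j : ℕ, (pp a j).natDegree ≤ j := by
  intro j
  induction j using Nat.strong_induction_on with
  | _ j ih =>
    rcases j with _ | j
    · rw [pp, Polynomial.natDegree_one]
    · rw [pp]
      refine Polynomial.natDegree_mul_le.trans ?_
      have h1 : (Polynomial.C ((j : ℂ) + 1)⁻¹ * Polynomial.X).natDegree ≤ 1 :=
        Polynomial.natDegree_C_mul_le _ _ |>.trans Polynomial.natDegree_X_le
      have h2 : (∑ i : Fin (j + 1), Polynomial.C (PowerSeries.coeff (j - i) a) * pp a i).natDegree ≤ j :=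
        Polynomial.natDegree_sum_le_of_forall_le _ _ fun i _ =>
          (Polynomial.natDegree_C_mul_le _ _).trans ((ih i i.2).trans (Nat.lt_succ_iff.mp i.2))
      omega

theorem pp_zero (a : ℂ⟦X⟧) (j : ℕ) : (pp a j).coeff 0 = if j = 0 then 1 else 0 := by
  rcases j with _ | j
  · rw [pp, if_pos rfl, Polynomial.coeff_one_zero]
  · rw [pp, if_neg (Nat.succ_ne_zero j), Polynomial.mul_coeff_zero, Polynomial.mul_coeff_zero,
      Polynomial.coeff_X_zero]
    ring

theorem pp_one (a : ℂ⟦X⟧) (j : ℕ) :
    (pp a j).coeff 1 = if j = 0 then 0 else PowerSeries.coeff (j - 1) a / (j : ℂ) := by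
  rcases j with _ | j
  · rw [pp, if_pos rfl, Polynomial.coeff_one]
    simp
  · rw [pp, if_neg (Nat.succ_ne_zero j), mul_assoc, Polynomial.coeff_C_mul, Polynomial.coeff_X_mul,
      Polynomial.finsetSum_coeff]
    simp_rw [Polynomial.coeff_C_mul, pp_zero]
    rw [Finset.sum_eq_single (0 : Fin (j + 1))]
    · simp only [Fin.val_zero, if_true, mul_one, Nat.sub_zero, Nat.add_sub_cancel]
      push_cast
      rw [div_eq_mul_inv, mul_comm]
    · intro i _ hi
      rw [if_neg (fun h : (i : ℕ) = 0 => hi (Fin.ext h)), mul_zero]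
    · intro h
      exact absurd (Finset.mem_univ _) h

/-- the weights -/
noncomputable def lam (i k : ℕ) : ℂ :=
  (Lagrange.basis (Finset.Icc 1 (i + 1)) (fun k : ℕ => (k : ℂ)) k).coeff 1

theorem extract {F a : ℂ⟦X⟧} (hF : LD F a) {i j : ℕ} (hj : j ≤ i) :
    PowerSeries.coeff j (∑ k ∈ Finset.Icc 1 (i + 1), lam i k • F ^ k) =
      if j = 0 then 0 else PowerSeries.coeff (j - 1) a / (j : ℂ) := by
  rw [← pp_one, map_sum]
  have h1 : (pp a j).degree < (Finset.Icc 1 (i + 1)).card := by
    rw [Nat.card_Icc]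
    refine (Polynomial.degree_le_natDegree).trans_lt ?_
    have := pp_deg a j
    exact_mod_cast (by omega : (pp a j).natDegree < i + 1 + 1 - 1)
  have h2 := Lagrange.eq_interpolate (s := Finset.Icc 1 (i + 1)) (v := fun k : ℕ => (k : ℂ))
    (fun x _ y _ h => Nat.cast_injective h) h1
  conv_rhs => rw [h2]
  rw [Lagrange.interpolate_apply, Polynomial.finsetSum_coeff]
  refine Finset.sum_congr rfl fun k _ => ?_
  rw [Polynomial.coeff_C_mul, ← pp_eval hF, PowerSeries.coeff_smul]
  unfold lam
  ring

end Pool.Agent.U187.MV
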